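import Pool.Agent.helper66.FB.Defs
import Pool.Agent.helper20.HP.S1

/-!
Calculus of the killed words `kw`, `kws`.
-/

set_option autoImplicit false

open scoped BigOperators Topology
open Filter MeasureTheory

namespace Pool.Agent.helper66.FB

open Finset
open Pool.Agent.helper20.HP

variable {V : Type} [Fintype V] [DecidableEq V] (K : HW V) (D : Finset V)

theorem kw_mono (t : ℕ) {F F' : V → List V → ℝ}
    (h : ∀ y ∈ D, ∀ l : List V, l.length = t → (∀ z ∈ l, z ∉ D) → F y l ≤ F' y l) :
    kw K D t F ≤ kw K D t F' := by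
  unfold kw
  refine Finset.sum_le_sum (fun y hy => W_mono K t y (fun l hl => ?_))
  by_cases hh : ∀ z ∈ l, z ∉ D
  · rw [ind_true hh, one_mul, one_mul]; exact h y hy l hl hh
  · rw [ind_false hh, zero_mul, zero_mul]

theorem kw_congr (t : ℕ) {F F' : V → List V → ℝ}
    (h : ∀ y ∈ D, ∀ l : List V, l.length = t → (∀ z ∈ l, z ∉ D) → F y l = F' y l) :
    kw K D t F = kw K D t F' :=
  le_antisymm (kw_mono K D t (fun y hy l hl hh => (h y hy l hl hh).le))
    (kw_mono K D t (fun y hy l hl hh => (h y hy l hl hh).ge))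

theorem kw_nonneg (t : ℕ) {F : V → List V → ℝ} (h : ∀ y l, 0 ≤ F y l) : 0 ≤ kw K D t F :=
  Finset.sum_nonneg (fun _ _ => W_nonneg K t _ (fun _ _ => mul_nonneg (ind_nonneg _) (h _ _)))

theorem kw_add (t : ℕ) (F F' : V → List V → ℝ) :
    kw K D t (fun y l => F y l + F' y l) = kw K D t F + kw K D t F' := by
  unfold kw
  rw [← Finset.sum_add_distrib]
  refine Finset.sum_congr rfl (fun y _ => ?_)
  rw [← W_add]
  exact W_congr K t _ (fun l _ => by ring)

theorem kw_mul_left (t : ℕ) (c : ℝ) (F : V → List V → ℝ) :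
    kw K D t (fun y l => c * F y l) = c * kw K D t F := by
  unfold kw
  rw [Finset.mul_sum]
  refine Finset.sum_congr rfl (fun y _ => ?_)
  rw [← W_mul_left]
  exact W_congr K t _ (fun l _ => by ring)

theorem kw_sub (t : ℕ) (F F' : V → List V → ℝ) :
    kw K D t (fun y l => F y l - F' y l) = kw K D t F - kw K D t F' := by
  have h := kw_add K D t F (fun y l => (-1) * F' y l)
  rw [kw_mul_left] at h
  have e : kw K D t (fun y l => F y l - F' y l) = kw K D t (fun y l => F y l + (-1) * F' y l) :=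
    kw_congr K D t (fun y _ l _ _ => by ring)
  rw [e, h]; ring

theorem kw_sum {ι : Type*} (s : Finset ι) (t : ℕ) (F : ι → V → List V → ℝ) :
    kw K D t (fun y l => ∑ i ∈ s, F i y l) = ∑ i ∈ s, kw K D t (F i) := by
  unfold kw
  rw [Finset.sum_comm]
  refine Finset.sum_congr rfl (fun y _ => ?_)
  rw [← W_sum]
  exact W_congr K t _ (fun l _ => by rw [Finset.mul_sum])

omit [Fintype V] [DecidableEq V] in
theorem kc_ind_append (D : Finset V) (l l' : List V) :
    ind (∀ z ∈ l ++ l', z ∉ D) = ind (∀ z ∈ l, z ∉ D) * ind (∀ z ∈ l', z ∉ D) := by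
  rw [← ind_and]
  refine ind_congr ?_
  constructor
  · intro h
    exact ⟨fun z hz => h z (List.mem_append.2 (Or.inl hz)),
      fun z hz => h z (List.mem_append.2 (Or.inr hz))⟩
  · rintro ⟨h1, h2⟩ z hz
    rcases List.mem_append.1 hz with h | h
    · exact h1 z h
    · exact h2 z h

theorem kw_split (s k : ℕ) (F : V → List V → ℝ) :
    kw K D (s + k) F = kw K D s (fun y l =>
      W K k (lst y l) (fun l' => ind (∀ z ∈ l', z ∉ D) * F y (l ++ l'))) := by
  unfold kw
  refine Finset.sum_congr rfl (fun y _ => ?_)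
  rw [W_split]
  refine W_congr K s _ (fun l _ => ?_)
  rw [← W_mul_left]
  refine W_congr K k _ (fun l' _ => ?_)
  rw [kc_ind_append]
  ring

/-- dropping the killing of the last `k` steps -/
theorem kw_split_le (s k : ℕ) {F : V → List V → ℝ} (h : ∀ y l, 0 ≤ F y l) :
    kw K D (s + k) F ≤ kw K D s (fun y l => W K k (lst y l) (fun l' => F y (l ++ l'))) := by
  rw [kw_split]
  refine kw_mono K D s (fun y _ l _ _ => W_mono K k _ (fun l' _ => ?_))
  calc ind (∀ z ∈ l', z ∉ D) * F y (l ++ l') ≤ 1 * F y (l ++ l') :=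
        mul_le_mul_of_nonneg_right (ind_le_one _) (h _ _)
    _ = F y (l ++ l') := one_mul _

theorem kws_mono (N : ℕ) {F F' : V → List V → ℝ}
    (h : ∀ y ∈ D, ∀ l : List V, l.length < N → (∀ z ∈ l, z ∉ D) → F y l ≤ F' y l) :
    kws K D N F ≤ kws K D N F' :=
  Finset.sum_le_sum (fun t ht => kw_mono K D t (fun y hy l hl hh =>
    h y hy l (by rw [hl]; exact Finset.mem_range.mp ht) hh))

theorem kws_congr (N : ℕ) {F F' : V → List V → ℝ}
    (h : ∀ y ∈ D, ∀ l : List V, l.length < N → (∀ z ∈ l, z ∉ D) → F y l = F' y l) :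
    kws K D N F = kws K D N F' :=
  le_antisymm (kws_mono K D N (fun y hy l hl hh => (h y hy l hl hh).le))
    (kws_mono K D N (fun y hy l hl hh => (h y hy l hl hh).ge))

theorem kws_nonneg (N : ℕ) {F : V → List V → ℝ} (h : ∀ y l, 0 ≤ F y l) : 0 ≤ kws K D N F :=
  Finset.sum_nonneg (fun t _ => kw_nonneg K D t h)

theorem kws_add (N : ℕ) (F F' : V → List V → ℝ) :
    kws K D N (fun y l => F y l + F' y l) = kws K D N F + kws K D N F' := by
  unfold kws
  rw [← Finset.sum_add_distrib]
  exact Finset.sum_congr rfl (fun t _ => kw_add K D t F F')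

theorem kws_sub (N : ℕ) (F F' : V → List V → ℝ) :
    kws K D N (fun y l => F y l - F' y l) = kws K D N F - kws K D N F' := by
  unfold kws
  rw [← Finset.sum_sub_distrib]
  exact Finset.sum_congr rfl (fun t _ => kw_sub K D t F F')

theorem kws_mul_left (N : ℕ) (c : ℝ) (F : V → List V → ℝ) :
    kws K D N (fun y l => c * F y l) = c * kws K D N F := by
  unfold kws
  rw [Finset.mul_sum]
  exact Finset.sum_congr rfl (fun t _ => kw_mul_left K D t c F)

theorem kws_sum {ι : Type*} (s : Finset ι) (N : ℕ) (F : ι → V → List V → ℝ) :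
    kws K D N (fun y l => ∑ i ∈ s, F i y l) = ∑ i ∈ s, kws K D N (F i) := by
  unfold kws
  rw [Finset.sum_comm]
  exact Finset.sum_congr rfl (fun t _ => kw_sum K D s t F)

theorem kws_mono_N {N N' : ℕ} (hN : N ≤ N') {F : V → List V → ℝ} (h : ∀ y l, 0 ≤ F y l) :
    kws K D N F ≤ kws K D N' F :=
  Finset.sum_le_sum_of_subset_of_nonneg (Finset.range_mono hN) (fun t _ _ => kw_nonneg K D t h)

/-- appending `k` steps -/
theorem kws_split (N k : ℕ) (F : V → List V → ℝ) :
    kws K D (N + k) F = kws K D k F + kws K D N (fun y l =>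
      W K k (lst y l) (fun l' => ind (∀ z ∈ l', z ∉ D) * F y (l ++ l'))) := by
  unfold kws
  rw [add_comm N k, Finset.sum_range_add]
  congr 1
  refine Finset.sum_congr rfl (fun t _ => ?_)
  rw [add_comm k t, kw_split]

/-- the words of length `≥ k`, killing of the last `k` steps dropped -/
theorem kws_long_le (N k : ℕ) {F : V → List V → ℝ} (h : ∀ y l, 0 ≤ F y l) :
    kws K D N (fun y l => ind (k ≤ l.length) * F y l) ≤
      kws K D N (fun y l => W K k (lst y l) (fun l' => F y (l ++ l'))) := by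
  have h0 : ∀ y l, 0 ≤ ind (k ≤ l.length) * F y l := fun y l => mul_nonneg (ind_nonneg _) (h y l)
  have h1 := kws_mono_N K D (Nat.le_add_right N k) h0
  refine h1.trans ?_
  rw [kws_split]
  have h2 : kws K D k (fun y l => ind (k ≤ l.length) * F y l) = 0 := by
    have : kws K D k (fun y l => ind (k ≤ l.length) * F y l) = kws K D k (fun _ _ => 0 * (0 : ℝ)) :=
      kws_congr K D k (fun y _ l hl _ => by
        rw [ind_false (not_le.mpr hl), zero_mul, zero_mul])
    rw [this, kws_mul_left, zero_mul]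
  rw [h2, zero_add]
  refine kws_mono K D N (fun y _ l _ _ => W_mono K k _ (fun l' hl' => ?_))
  have h3 : k ≤ (l ++ l').length := by rw [List.length_append]; omega
  rw [ind_true h3, one_mul]
  calc ind (∀ z ∈ l', z ∉ D) * F y (l ++ l') ≤ 1 * F y (l ++ l') :=
        mul_le_mul_of_nonneg_right (ind_le_one _) (h _ _)
    _ = F y (l ++ l') := one_mul _

end Pool.Agent.helper66.FB
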