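import Pool.Agent.helper66.FB.SS

/-!
Module fb:IN : induction over the number of vertices.
-/

set_option autoImplicit false

open scoped BigOperators Topology
open Filter MeasureTheory

namespace Pool.Agent.helper66.FB

open Finset
open Pool.Agent.helper72.UT (IsFor dep pth rt fors Reg lz fors_nonempty)
open Pool.Agent.helper20.HP
open Pool.Agent.helper90.FN (EF glue dn sk avJ Hit)

variable {V : Type} [Fintype V] [DecidableEq V]

theorem IN_Q_mono (K : HW V) {D D' : Finset V} (h : D ⊆ D') (m : ℕ) : Q K D m ≤ Q K D' m := by
  unfold Q
  refine div_le_div_of_nonneg_right (Finset.sum_le_sum (fun x _ => ?_)) (Nat.cast_nonneg _)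
  refine W_mono K m x (fun l _ => ind_mono ?_)
  rintro ⟨z, hz, hz'⟩
  exact ⟨z, hz, h hz'⟩

theorem IN_Q_nonneg (K : HW V) (D : Finset V) (m : ℕ) : 0 ≤ Q K D m := by
  unfold Q
  exact div_nonneg (Finset.sum_nonneg (fun x _ => W_nonneg K m x (fun l _ => ind_nonneg _)))
    (Nat.cast_nonneg _)

theorem IN_zero (G : SimpleGraph V) (K : HW V) (m : ℕ) (κ : ℝ) (k : ℕ) :
    ∀ D : Finset V, κ ≤ Q K D m → it G k (fun D => ind (Q K D m < κ)) D = 0 := by
  induction k with
  | zero =>
    intro D hD
    show ind (Q K D m < κ) = 0
    exact ind_false (not_lt.2 hD)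
  | succ k ih =>
    intro D hD
    show (∑ v, EF G D (fun g => it G k (fun D => ind (Q K D m < κ)) (dn D g v)))
      / (Fintype.card V : ℝ) = 0
    have : ∀ v, EF G D (fun g => it G k (fun D => ind (Q K D m < κ)) (dn D g v)) = 0 := by
      intro v
      unfold EF
      rw [Finset.sum_eq_zero, zero_div]
      intro g _
      exact ih _ (hD.trans (IN_Q_mono K Finset.subset_union_left m))
    rw [Finset.sum_eq_zero (fun v _ => this v), zero_div]

theorem IN_En_symm (K : HW V) (m : ℕ) (A B : Finset V) : En K m A B = En K m B A := by
  unfold En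
  rw [Finset.sum_comm]
  refine Finset.sum_congr rfl (fun y _ => Finset.sum_congr rfl (fun x _ => ?_))
  unfold Gr
  exact Finset.sum_congr rfl (fun u _ => pt_symm K u x y)

theorem IN_En_union (K : HW V) (m : ℕ) {A B : Finset V} (h : Disjoint A B) :
    En K m (A ∪ B) (A ∪ B) = En K m A A + (2 * En K m B A + En K m B B) := by
  have h1 : ∀ C, En K m (A ∪ B) C = En K m A C + En K m B C := by
    intro C
    unfold En
    rw [Finset.sum_union h]
  have h2 : ∀ C, En K m C (A ∪ B) = En K m C A + En K m C B := by
    intro C
    rw [IN_En_symm, h1, IN_En_symm K m A C, IN_En_symm K m B C]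
  rw [h1, h2, h2, IN_En_symm K m A B]
  ring

theorem IN : IN_stmt := by
  intro hSS hQE hWI hK2 hEC hES hK1 V _ _ G d K θ h hReg hK hP D₀ m a J κ p E hD0 hm ha hJ hE hp
    hκ hbad
  classical
  have hn : (0 : ℝ) < Fintype.card V := by exact_mod_cast Par.card_pos hP
  have hθ : (0 : ℝ) ≤ θ := le_trans zero_le_one hP.one_le
  set n : ℝ := (Fintype.card V : ℝ) with hnd
  have hJR : (1 : ℝ) ≤ J := by exact_mod_cast hJ
  have haR : (1 : ℝ) ≤ a := by exact_mod_cast ha
  have hJa : (0 : ℝ) < J * a := by positivity
  have hκ0 : 0 ≤ κ := by rw [hκ]; positivity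
  set e : ℝ := 2 * m * θ + 2 * J * a * m * (m + 1) / n with he
  have he0 : 0 ≤ e := by rw [he]; positivity
  set Fb : Finset V → ℝ := fun D => ind (Q K D m < κ) with hFb
  have claim : ∀ k : ℕ, ∀ D A : Finset V, D₀ ⊆ D → (k = J → D = D₀) → k ≤ J → A ⊆ D →
      A.card + k * a ≤ J * a →
      it G k Fb D ≤ 2 * (((J : ℝ) - k) * a - A.card) / (J * a) + 2 * k * (κ + p) / J
        + (En K m A A + k * e) / E := by
    intro k
    induction k with
    | zero =>
      intro D A _ _ _ hAD hAc
      show ind (Q K D m < κ) ≤ _
      have hAc' : (A.card : ℝ) ≤ J * a := by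
        have : A.card ≤ J * a := by simpa using hAc
        exact_mod_cast this
      have hEn := SS_En_nonneg K m A A
      have t1 : 0 ≤ 2 * (((J : ℝ) - (0 : ℕ)) * a - A.card) / (J * a) := by
        refine div_nonneg ?_ hJa.le
        push_cast; linarith
      have t3 : 0 ≤ (En K m A A + (0 : ℕ) * e) / E := by
        refine div_nonneg ?_ hE.le
        push_cast; linarith
      have t2 : (2 * ((0 : ℕ) : ℝ) * (κ + p) / J) = 0 := by simp
      by_cases hQ : Q K D m < κ
      · rw [ind_true hQ, t2]
        by_cases h1 : (A.card : ℝ) ≤ J * a / 2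
        · have : 1 ≤ 2 * (((J : ℝ) - (0 : ℕ)) * a - A.card) / (J * a) := by
            rw [le_div_iff₀ hJa]; push_cast; linarith
          linarith
        · push Not at h1
          by_cases h2 : E ≤ En K m A A
          · have : 1 ≤ (En K m A A + (0 : ℕ) * e) / E := by
              rw [le_div_iff₀ hE]; push_cast; linarith
            linarith
          · exfalso
            push Not at h2
            have h3 := hQE V K A m (Par.card_pos hP)
            have h4 : Q K A m ≤ Q K D m := IN_Q_mono K hAD m
            have hQ0 := IN_Q_nonneg K A m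
            have h5 : ((m + 1) * (A.card : ℝ) / n) ^ 2 ≤ Q K D m * (2 * (m + 1) / n * E) := by
              refine h3.trans ?_
              refine mul_le_mul h4 ?_ (mul_nonneg (by positivity) hEn) (hQ0.trans h4)
              exact mul_le_mul_of_nonneg_left h2.le (by positivity)
            have h6 : κ ≤ Q K D m := by
              have hc : (J * a / 2 : ℝ) ^ 2 ≤ (A.card : ℝ) ^ 2 := by
                refine pow_le_pow_left₀ (by positivity) h1.le 2
              rw [hκ, div_le_iff₀ (by positivity)]
              have h7 : ((m : ℝ) + 1) * (J * a / 2) ^ 2 * ((m + 1) / n ^ 2) ≤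
                  Q K D m * (2 * n * E) * ((m + 1) / n ^ 2) := by
                have e1 : ((m : ℝ) + 1) * (J * a / 2) ^ 2 * ((m + 1) / n ^ 2)
                    = ((m + 1) / n) ^ 2 * (J * a / 2) ^ 2 := by field_simp
                have e2 : Q K D m * (2 * n * E) * ((m + 1) / n ^ 2)
                    = Q K D m * (2 * (m + 1) / n * E) := by field_simp
                rw [e1, e2]
                refine le_trans ?_ h5
                have e3 : ((m + 1) * (A.card : ℝ) / n) ^ 2 = ((m + 1) / n) ^ 2 * (A.card : ℝ) ^ 2 := by
                  field_simp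
                rw [e3]
                exact mul_le_mul_of_nonneg_left hc (by positivity)
              exact le_of_mul_le_mul_right h7 (by positivity)
            linarith
      · rw [ind_false hQ, t2]
        linarith
    | succ k ih =>
      intro D A hD hkJ hk hAD hAc
      have hcc : ((A.card : ℝ) + (k + 1) * a) ≤ J * a := by exact_mod_cast hAc
      have hEn := SS_En_nonneg K m A A
      by_cases hQ : Q K D m < κ
      · have hAJ : (A.card : ℝ) ≤ J * a := by
          have : 0 ≤ ((k : ℝ) + 1) * a := by positivity
          linarith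
        have hAc' : A.card + k * a ≤ J * a := by
          have : k * a ≤ (k + 1) * a := Nat.mul_le_mul_right _ (Nat.le_succ k)
          omega
        have hstep := hSS hWI hK2 hEC hES hK1 V G d K θ h hReg hK hP D A (it G k Fb) m a κ p
          (2 * (((J : ℝ) - k) * a - A.card) / (J * a) + 2 * k * (κ + p) / J
            + (En K m A A + k * e) / E) (2 / J) (1 / E) (hD0.mono hD) hm (by positivity)
          (by positivity) hQ.le (hbad D (by
            by_cases hkk : k + 1 = J
            · exact Or.inl (hkJ hkk)
            · exact Or.inr ⟨hD, by omega⟩))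
          (fun D' hD' => ih D' A (hD.trans hD') (by omega) (by omega) (hAD.trans hD') hAc')
          (by
            intro D' B hDD' hBD' hdis hBa
            have hdis' : Disjoint A B := (hdis.mono_right hAD).symm
            have hcard : (A ∪ B).card = A.card + a := by
              rw [Finset.card_union_of_disjoint hdis', hBa]
            have h1 := ih D' (A ∪ B) (hD.trans hDD') (by omega) (by omega)
              (Finset.union_subset (hAD.trans hDD') hBD') (by
                rw [hcard]
                have : (k + 1) * a = k * a + a := by ring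
                omega)
            refine h1.trans (le_of_eq ?_)
            rw [IN_En_union K m hdis', hcard]
            push_cast
            field_simp
            ring)
        show (∑ v, EF G D (fun g => it G k Fb (dn D g v))) / (Fintype.card V : ℝ) ≤ _
        refine hstep.trans ?_
        have h8 : (m : ℝ) * (m + 1) * A.card / n ≤ J * a * m * (m + 1) / n := by
          refine div_le_div_of_nonneg_right ?_ hn.le
          have : (m : ℝ) * (m + 1) * A.card ≤ m * (m + 1) * (J * a) :=
            mul_le_mul_of_nonneg_left hAJ (by positivity)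
          linarith
        have h9 : 1 / E * (2 * (m * (m + 1) * A.card / n) + 2 * m * θ) ≤ e / E := by
          rw [he, one_div, inv_mul_eq_div]
          refine div_le_div_of_nonneg_right ?_ hE.le
          have : 2 * J * a * m * (m + 1) / n = 2 * ((J : ℝ) * a * m * (m + 1) / n) := by ring
          rw [this]
          linarith
        have h10 : 2 * (((J : ℝ) - k) * a - A.card) / (J * a) + 2 * k * (κ + p) / J
            + (En K m A A + k * e) / E - 2 / J * (1 - κ - p) + e / E
            = 2 * (((J : ℝ) - (k + 1 : ℕ)) * a - A.card) / (J * a)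
              + 2 * ((k + 1 : ℕ) : ℝ) * (κ + p) / J + (En K m A A + ((k + 1 : ℕ) : ℝ) * e) / E := by
          push_cast
          field_simp
          ring
        linarith
      · push Not at hQ
        rw [IN_zero G K m κ (k + 1) D hQ]
        have t1 : 0 ≤ 2 * (((J : ℝ) - (k + 1 : ℕ)) * a - A.card) / (J * a) := by
          refine div_nonneg ?_ hJa.le
          push_cast
          have : (J : ℝ) * a - (k + 1) * a = (J - (k + 1)) * a := by ring
          linarith
        have t2 : 0 ≤ 2 * ((k + 1 : ℕ) : ℝ) * (κ + p) / J := by positivity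
        have t3 : 0 ≤ (En K m A A + ((k + 1 : ℕ) : ℝ) * e) / E := by positivity
        linarith
  have hfin := claim J D₀ ∅ (Finset.Subset.refl _) (fun _ => rfl) le_rfl (Finset.empty_subset _)
    (by simp)
  refine hfin.trans (le_of_eq ?_)
  have h0 : En K m (∅ : Finset V) ∅ = 0 := by simp [En]
  rw [h0, he]
  simp only [Finset.card_empty, Nat.cast_zero, sub_self, zero_mul, mul_zero, zero_div, zero_add]
  field_simp

end Pool.Agent.helper66.FB
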