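import Pool.Agent.helper66.FB.Spec2
import Pool.Agent.helper66.FB.IN
import Pool.Agent.helper64.FB.ML

/-!
Module fb:B2 : B2_stmt from the quantitative statement B2S_stmt.
-/

set_option autoImplicit false

open scoped BigOperators Topology
open Filter MeasureTheory

namespace Pool.Agent.helper66.FB

open Finset
open Pool.Agent.helper72.UT (IsFor dep pth rt fors Reg lz fors_nonempty)
open Pool.Agent.helper20.HP
open Pool.Agent.helper90.FN (EF glue dn sk avJ Hit)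

variable {V : Type} [Fintype V] [DecidableEq V]

theorem B2_EF_mono (G : SimpleGraph V) (D : Finset V) {F F' : (V → V) → ℝ} (h : ∀ f, F f ≤ F' f) :
    EF G D F ≤ EF G D F' := by
  unfold EF
  exact div_le_div_of_nonneg_right (Finset.sum_le_sum (fun f _ => h f)) (Nat.cast_nonneg _)

theorem B2_EF_le (G : SimpleGraph V) (D : Finset V) {F : (V → V) → ℝ} (h : ∀ f, F f ≤ 1) :
    EF G D F ≤ 1 := by
  unfold EF
  rcases Nat.eq_zero_or_pos (fors G D).card with h0 | h0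
  · rw [h0]; simp
  · rw [div_le_one (by exact_mod_cast h0)]
    calc ∑ f ∈ fors G D, F f ≤ ∑ f ∈ fors G D, (1 : ℝ) := Finset.sum_le_sum (fun f _ => h f)
      _ = ((fors G D).card : ℝ) := by simp

theorem B2_it_mono (G : SimpleGraph V) (k : ℕ) {F F' : Finset V → ℝ} (h : ∀ D, F D ≤ F' D) :
    ∀ D, it G k F D ≤ it G k F' D := by
  induction k with
  | zero => exact h
  | succ k ih =>
    intro D
    show (∑ v, EF G D (fun g => it G k F (dn D g v))) / (Fintype.card V : ℝ) ≤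
      (∑ v, EF G D (fun g => it G k F' (dn D g v))) / (Fintype.card V : ℝ)
    exact div_le_div_of_nonneg_right (Finset.sum_le_sum (fun v _ =>
      B2_EF_mono G D (fun g => ih _))) (Nat.cast_nonneg _)

theorem B2_it_le (G : SimpleGraph V) (k : ℕ) {F : Finset V → ℝ} (h : ∀ D, F D ≤ 1) :
    ∀ D, it G k F D ≤ 1 := by
  induction k with
  | zero => exact h
  | succ k ih =>
    intro D
    show (∑ v, EF G D (fun g => it G k F (dn D g v))) / (Fintype.card V : ℝ) ≤ 1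
    rcases Nat.eq_zero_or_pos (Fintype.card V) with h0 | h0
    · rw [h0]; simp
    · rw [div_le_one (by exact_mod_cast h0)]
      calc ∑ v, EF G D (fun g => it G k F (dn D g v)) ≤ ∑ _v : V, (1 : ℝ) :=
            Finset.sum_le_sum (fun v _ => B2_EF_le G D (fun g => ih _))
        _ = (Fintype.card V : ℝ) := by simp

theorem B2_Hit_mono (K : HW V) (D : Finset V) {h h' : ℕ} (hh : h ≤ h') (H : Hit K D h) :
    Hit K D h' := by
  intro x
  refine le_trans ?_ (H x)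
  obtain ⟨j, rfl⟩ := Nat.exists_eq_add_of_le hh
  rw [W_split]
  refine W_mono K h x (fun l _ => ?_)
  calc W K j (lst x l) (fun l' => ind (∀ z ∈ l ++ l', z ∉ D))
      ≤ W K j (lst x l) (fun _ => ind (∀ z ∈ l, z ∉ D)) := by
        refine W_mono K j _ (fun l' _ => ind_mono ?_)
        intro h1 z hz
        exact h1 z (List.mem_append.2 (Or.inl hz))
    _ = _ := W_const K j _ _

theorem B2 (hB2S : B2S_stmt) : B2_stmt := by
  intro S K hK lam hlam
  set θ : ℝ := max S.θ 1 with hθdef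
  obtain ⟨C₀, hC₀, hmain⟩ := hB2S θ
  set T₀ : ℕ := ⌈3 * C₀⌉₊ + 1 with hT₀
  refine ⟨(T₀ + 1 : ℝ) + C₀ * (1 + 2 * lam) * 2, ?_⟩
  have hcard : Tendsto (fun k => (Fintype.card (S.V k) : ℝ)) atTop atTop :=
    tendsto_natCast_atTop_atTop.comp S.card
  have ha0 : 0 < S.a := lt_min S.α_pos (by norm_num)
  have ha1 : S.a ≤ 1 / 4 := min_le_right _ _
  filter_upwards [par_eventually S K hK, tmix_small S (1 / 512) (by norm_num),
    hcard.eventually_ge_atTop 16] with k hP htm hc16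
  intro D hD hHit J hJ hJn
  have hc2 : 2 ≤ Fintype.card (S.V k) := by
    have : (2 : ℝ) ≤ Fintype.card (S.V k) := by linarith
    exact_mod_cast this
  obtain ⟨d, hR⟩ := M2_reg (S.G k) (S.conn k) (S.trans k) hc2
  have hKp := M2_kernel hR (K k) (fun t x y => hK k t x y)
  set n : ℝ := (Fintype.card (S.V k) : ℝ) with hn
  have hn0 : 0 < n := by linarith
  have hn1 : 1 ≤ n := by linarith
  set h₀ : ℕ := tmix (S.G k) + 1 with hh₀
  have hStd : Std (S.G k) d (K k) θ h₀ := ⟨hR, hKp, hP, fun x y => ML S K hK k x y hc2⟩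
  set s : ℝ := Real.sqrt n with hs
  set L : ℕ := Nat.sqrt (Fintype.card (S.V k)) with hL
  have hLs : (L : ℝ) ≤ s := by rw [hs, hn]; exact Real.nat_sqrt_le_real_sqrt
  have hs2 : s ^ 2 = n := Real.sq_sqrt hn0.le
  have hs0 : 0 ≤ s := Real.sqrt_nonneg n
  have hs4 : 4 ≤ s := by
    rw [hs]; apply Real.le_sqrt_of_sq_le; linarith
  have hsL : s < (L : ℝ) + 1 := by
    rw [hs, Real.sqrt_lt' (by positivity)]
    have := Nat.lt_succ_sqrt (Fintype.card (S.V k))
    have h3 : n < ((L : ℝ) + 1) * ((L : ℝ) + 1) := by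
      rw [hn]; exact_mod_cast this
    nlinarith
  have hsL2 : s / 2 ≤ L := by linarith
  have hL0 : (0 : ℝ) < L := by linarith
  have hsn : s = n ^ (1 / 2 : ℝ) := by rw [hs, Real.sqrt_eq_rpow]
  -- the integer `t`
  obtain ⟨t, ht1, ht2, ht3⟩ : ∃ t : ℕ, 1 ≤ t ∧ t ^ 12 ≤ J ∧ J < (t + 1) ^ 12 := by
    have hex : ∃ t : ℕ, J < (t + 1) ^ 12 :=
      ⟨J, lt_of_lt_of_le (Nat.lt_succ_self J) (Nat.le_self_pow (by norm_num) _)⟩
    classical
    refine ⟨Nat.find hex, ?_, ?_, Nat.find_spec hex⟩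
    · by_contra h0
      have h0' : Nat.find hex = 0 := by omega
      have := Nat.find_spec hex
      rw [h0'] at this
      simp at this
      omega
    · by_contra h0
      push Not at h0
      have hpos : Nat.find hex ≠ 0 := by
        intro h1
        rw [h1] at h0
        simp at h0
      obtain ⟨r, hr⟩ := Nat.exists_eq_succ_of_ne_zero hpos
      have := Nat.find_min hex (m := r) (by omega)
      apply this
      rw [hr] at h0
      exact h0
  have htR : (1 : ℝ) ≤ t := by exact_mod_cast ht1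
  have hJR : (1 : ℝ) ≤ J := by exact_mod_cast hJ
  have hJ0 : (0 : ℝ) < J := by linarith
  have ht2R : (t : ℝ) ^ 12 ≤ J := by exact_mod_cast ht2
  have ht3R : (J : ℝ) ≤ ((t : ℝ) + 1) ^ 12 := by
    have : (J : ℝ) < ((t + 1 : ℕ) : ℝ) ^ 12 := by exact_mod_cast ht3
    push_cast at this
    exact this.le
  -- `J^(1/12) ≤ t + 1`
  have hJ12 : (J : ℝ) ^ (1 / 12 : ℝ) ≤ t + 1 := by
    calc (J : ℝ) ^ (1 / 12 : ℝ) ≤ (((t : ℝ) + 1) ^ 12) ^ (1 / 12 : ℝ) :=
          Real.rpow_le_rpow hJ0.le ht3R (by norm_num)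
      _ = t + 1 := by
          rw [← Real.rpow_natCast, ← Real.rpow_mul (by positivity)]
          norm_num
  have htJ12 : (t : ℝ) ≤ (J : ℝ) ^ (1 / 12 : ℝ) := by
    calc (t : ℝ) = ((t : ℝ) ^ 12) ^ (1 / 12 : ℝ) := by
          rw [← Real.rpow_natCast, ← Real.rpow_mul (by positivity)]
          norm_num
      _ ≤ _ := Real.rpow_le_rpow (by positivity) ht2R (by norm_num)
  have hinv : (J : ℝ) ^ (-(1 / 12) : ℝ) = ((J : ℝ) ^ (1 / 12 : ℝ))⁻¹ := Real.rpow_neg hJ0.le _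
  have hp12 : 0 < (J : ℝ) ^ (1 / 12 : ℝ) := Real.rpow_pos_of_pos hJ0 _
  have hC1 : 0 ≤ C₀ * (1 + 2 * lam) * 2 := by positivity
  by_cases hT : t < T₀
  · -- small `J`
    have h1 : it (S.G k) J (fun D' => ind (¬ Hit (K k) D'
        ⌊s * (J : ℝ) ^ (-(1 / 8) : ℝ)⌋₊)) D ≤ 1 := B2_it_le _ _ (fun D => ind_le_one _) D
    refine h1.trans ?_
    have h2 : (t : ℝ) + 1 ≤ T₀ + 1 := by
      have : (t : ℝ) ≤ T₀ := by exact_mod_cast hT.le
      linarith
    rw [hinv, ← div_eq_mul_inv, le_div_iff₀ hp12, one_mul]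
    linarith
  · push Not at hT
    have hTR : 3 * C₀ + 1 ≤ t := by
      have h1 : 3 * C₀ ≤ ⌈3 * C₀⌉₊ := Nat.le_ceil _
      have h2 : ((⌈3 * C₀⌉₊ + 1 : ℕ) : ℝ) ≤ t := by exact_mod_cast hT
      push_cast at h2
      linarith
    -- the constraint on the parameters
    have hsmall : 64 * (t * h₀ * (Nat.sqrt J + 1)) ≤ L := by
      have h1 : (h₀ : ℝ) ≤ 1 / 512 * n ^ (1 / 2 - S.a) := by
        have := htm
        simpa [Setup.a, hh₀] using this
      have h2 : ((Nat.sqrt J : ℕ) : ℝ) + 1 ≤ 2 * n ^ (S.a / 2) := by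
        have h3 : ((Nat.sqrt J : ℕ) : ℝ) ≤ Real.sqrt J := Real.nat_sqrt_le_real_sqrt
        have h4 : Real.sqrt J ≤ n ^ (S.a / 2) := by
          rw [Real.sqrt_eq_rpow]
          calc (J : ℝ) ^ (1 / 2 : ℝ) ≤ (n ^ S.a) ^ (1 / 2 : ℝ) :=
                Real.rpow_le_rpow hJ0.le hJn (by norm_num)
            _ = n ^ (S.a / 2) := by
                rw [← Real.rpow_mul hn0.le]; congr 1; ring
        have h5 : 1 ≤ n ^ (S.a / 2) := Real.one_le_rpow hn1 (by positivity)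
        linarith
      have h3 : (t : ℝ) ≤ n ^ (S.a / 12) := by
        calc (t : ℝ) ≤ (J : ℝ) ^ (1 / 12 : ℝ) := htJ12
          _ ≤ (n ^ S.a) ^ (1 / 12 : ℝ) := Real.rpow_le_rpow hJ0.le hJn (by norm_num)
          _ = n ^ (S.a / 12) := by rw [← Real.rpow_mul hn0.le]; congr 1; ring
      have hA : 0 < n ^ (S.a / 12) := Real.rpow_pos_of_pos hn0 _
      have hB : 0 < n ^ (1 / 2 - S.a) := Real.rpow_pos_of_pos hn0 _
      have hCp : 0 < n ^ (S.a / 2) := Real.rpow_pos_of_pos hn0 _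
      have h4 : (t : ℝ) * h₀ * ((Nat.sqrt J : ℕ) + 1) ≤
          n ^ (S.a / 12) * (1 / 512 * n ^ (1 / 2 - S.a)) * (2 * n ^ (S.a / 2)) := by
        refine mul_le_mul (mul_le_mul h3 h1 (Nat.cast_nonneg _) hA.le) h2 (by positivity)
          (by positivity)
      have h5 : n ^ (S.a / 12) * (1 / 512 * n ^ (1 / 2 - S.a)) * (2 * n ^ (S.a / 2))
          = 1 / 256 * n ^ (1 / 2 - 5 * S.a / 12) := by
        have : n ^ (S.a / 12) * (1 / 512 * n ^ (1 / 2 - S.a)) * (2 * n ^ (S.a / 2))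
            = 1 / 256 * (n ^ (S.a / 12) * n ^ (1 / 2 - S.a) * n ^ (S.a / 2)) := by ring
        rw [this, ← Real.rpow_add hn0, ← Real.rpow_add hn0]
        congr 2
        ring
      have h6 : n ^ (1 / 2 - 5 * S.a / 12) ≤ s := by
        rw [hsn]
        exact Real.rpow_le_rpow_of_exponent_le hn1 (by linarith)
      have h7 : (64 * (t * h₀ * (Nat.sqrt J + 1)) : ℝ) ≤ L := by
        have : (t : ℝ) * h₀ * ((Nat.sqrt J : ℕ) + 1) ≤ 1 / 256 * s := by
          rw [h5] at h4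
          linarith
        linarith
      exact_mod_cast h7
    have hb := hmain (S.V k) (S.G k) d (K k) h₀ hStd D ⌊lam * s⌋₊ t J hD hHit ht1 ht2 ht3 hsmall
    -- comparison of the times
    have hfl : ⌊C₀ * L / (t : ℝ) ^ 3⌋₊ ≤ ⌊s * (J : ℝ) ^ (-(1 / 8) : ℝ)⌋₊ := by
      refine Nat.floor_le_floor ?_
      have h1 : (J : ℝ) ^ (1 / 8 : ℝ) ≤ 3 * (t : ℝ) ^ 2 := by
        calc (J : ℝ) ^ (1 / 8 : ℝ) ≤ (((t : ℝ) + 1) ^ 12) ^ (1 / 8 : ℝ) :=
              Real.rpow_le_rpow hJ0.le ht3R (by norm_num)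
          _ = ((t : ℝ) + 1) ^ (3 / 2 : ℝ) := by
              rw [← Real.rpow_natCast, ← Real.rpow_mul (by positivity)]
              norm_num
          _ ≤ ((t : ℝ) + 1) ^ (3 / 2 : ℝ) := le_rfl
          _ ≤ (2 * (t : ℝ)) ^ (3 / 2 : ℝ) :=
              Real.rpow_le_rpow (by positivity) (by linarith) (by norm_num)
          _ = 2 ^ (3 / 2 : ℝ) * (t : ℝ) ^ (3 / 2 : ℝ) := Real.mul_rpow (by norm_num) (by positivity)
          _ ≤ 3 * (t : ℝ) ^ 2 := by
              refine mul_le_mul ?_ ?_ (by positivity) (by norm_num)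
              · have : (2 : ℝ) ^ (3 / 2 : ℝ) = Real.sqrt 8 := by
                  rw [Real.sqrt_eq_rpow, show (8 : ℝ) = 2 ^ (3 : ℝ) by norm_num,
                    ← Real.rpow_mul (by norm_num)]
                  norm_num
                rw [this]
                rw [Real.sqrt_le_left (by norm_num)]
                norm_num
              · calc (t : ℝ) ^ (3 / 2 : ℝ) ≤ (t : ℝ) ^ (2 : ℝ) :=
                      Real.rpow_le_rpow_of_exponent_le htR (by norm_num)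
                  _ = (t : ℝ) ^ 2 := by norm_num
      have hp8 : 0 < (J : ℝ) ^ (1 / 8 : ℝ) := Real.rpow_pos_of_pos hJ0 _
      rw [Real.rpow_neg hJ0.le, ← div_eq_mul_inv, div_le_div_iff₀ (by positivity) hp8]
      calc C₀ * L * (J : ℝ) ^ (1 / 8 : ℝ) ≤ C₀ * s * (3 * (t : ℝ) ^ 2) := by
            refine mul_le_mul (mul_le_mul_of_nonneg_left hLs hC₀.le) h1 hp8.le (by positivity)
        _ = s * (3 * C₀ * (t : ℝ) ^ 2) := by ring
        _ ≤ s * (t : ℝ) ^ 3 := by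
            refine mul_le_mul_of_nonneg_left ?_ hs0
            nlinarith [sq_nonneg (t : ℝ)]
    have hle : it (S.G k) J (fun D' => ind (¬ Hit (K k) D'
        ⌊s * (J : ℝ) ^ (-(1 / 8) : ℝ)⌋₊)) D ≤
        it (S.G k) J (fun D' => ind (¬ Hit (K k) D' ⌊C₀ * L / (t : ℝ) ^ 3⌋₊)) D := by
      refine B2_it_mono _ _ (fun D' => ind_mono ?_) D
      intro h1 h2
      exact h1 (B2_Hit_mono (K k) D' hfl h2)
    refine (hle.trans hb).trans ?_
    have hfl2 : ((⌊lam * s⌋₊ : ℕ) : ℝ) ≤ lam * s := Nat.floor_le (by positivity)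
    have h8 : ((⌊lam * s⌋₊ : ℕ) : ℝ) / L ≤ 2 * lam := by
      rw [div_le_iff₀ hL0]
      calc ((⌊lam * s⌋₊ : ℕ) : ℝ) ≤ lam * s := hfl2
        _ ≤ 2 * lam * L := by nlinarith
    have h9 : 1 / (t : ℝ) ≤ 2 * ((J : ℝ) ^ (1 / 12 : ℝ))⁻¹ := by
      rw [← div_eq_mul_inv, div_le_div_iff₀ (by positivity) hp12]
      linarith
    rw [hinv]
    calc C₀ * (1 + ((⌊lam * s⌋₊ : ℕ) : ℝ) / L) / t
        = C₀ * (1 + ((⌊lam * s⌋₊ : ℕ) : ℝ) / L) * (1 / t) := by ring
      _ ≤ C₀ * (1 + 2 * lam) * (2 * ((J : ℝ) ^ (1 / 12 : ℝ))⁻¹) := by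
          refine mul_le_mul ?_ h9 (by positivity) (by positivity)
          exact mul_le_mul_of_nonneg_left (by linarith) hC₀.le
      _ ≤ ((T₀ + 1 : ℝ) + C₀ * (1 + 2 * lam) * 2) * ((J : ℝ) ^ (1 / 12 : ℝ))⁻¹ := by
          have h10 : 0 ≤ (T₀ + 1 : ℝ) * ((J : ℝ) ^ (1 / 12 : ℝ))⁻¹ := by positivity
          nlinarith

end Pool.Agent.helper66.FB
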