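import Pool.Agent.helper66.FB.Spec
import Pool.Agent.helper66.FB.KC
import Pool.Agent.helper72.UT.Total

/-!
Module fb:SS : one step of the construction of the skeleton.
-/

set_option autoImplicit false

open scoped BigOperators Topology
open Filter MeasureTheory

namespace Pool.Agent.helper66.FB

open Finset
open Pool.Agent.helper72.UT (IsFor dep pth rt fors Reg lz fors_nonempty)
open Pool.Agent.helper20.HP
open Pool.Agent.helper90.FN (EF glue dn sk avJ Hit)

variable {V : Type} [Fintype V] [DecidableEq V]

theorem SS_EF_const {G : SimpleGraph V} (hG : G.Connected) {D : Finset V} (hD : D.Nonempty) (c : ℝ) :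
    EF G D (fun _ => c) = c := by
  unfold EF
  have h : ((fors G D).card : ℝ) ≠ 0 := by
    have := Finset.card_pos.2 (fors_nonempty hG hD)
    exact_mod_cast this.ne'
  rw [Finset.sum_const, nsmul_eq_mul]
  field_simp

theorem SS_EF_sum {ι : Type*} (s : Finset ι) (G : SimpleGraph V) (D : Finset V)
    (F : ι → (V → V) → ℝ) : ∑ i ∈ s, EF G D (F i) = EF G D (fun g => ∑ i ∈ s, F i g) := by
  unfold EF
  rw [← Finset.sum_div, Finset.sum_comm]

theorem SS_Gr_nonneg (K : HW V) (m : ℕ) (x y : V) : 0 ≤ Gr K m x y :=
  Finset.sum_nonneg (fun _ _ => pt_nonneg K _ _ _)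

theorem SS_En_nonneg (K : HW V) (m : ℕ) (A B : Finset V) : 0 ≤ En K m A B :=
  Finset.sum_nonneg (fun _ _ => Finset.sum_nonneg (fun _ _ => SS_Gr_nonneg K m _ _))

theorem SS_En_mono (K : HW V) (m : ℕ) {A A' B B' : Finset V} (hA : A ⊆ A') (hB : B ⊆ B') :
    En K m A B ≤ En K m A' B' := by
  unfold En
  refine (Finset.sum_le_sum (fun x _ => Finset.sum_le_sum_of_subset_of_nonneg hB
    (fun y _ _ => SS_Gr_nonneg K m x y))).trans ?_
  exact Finset.sum_le_sum_of_subset_of_nonneg hA
    (fun x _ _ => Finset.sum_nonneg (fun y _ => SS_Gr_nonneg K m x y))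

/-- mass of the words shorter than `m` -/
theorem SS_short (K : HW V) (D : Finset V) (m N : ℕ) :
    kws K D N (fun _ l => ind (l.length < m)) ≤ kws K D (m + 1) (fun _ _ => 1) := by
  have h0 : ∀ (y : V) (l : List V), 0 ≤ ind (l.length < m) := fun _ _ => ind_nonneg _
  refine (kws_mono_N K D (Nat.le_add_left N (m + 1)) h0).trans ?_
  have h1 : kws K D (m + 1 + N) (fun _ l => ind (l.length < m))
      = kws K D (m + 1) (fun _ l => ind (l.length < m))
        + ∑ t ∈ range N, kw K D (m + 1 + t) (fun _ l => ind (l.length < m)) := by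
    unfold kws
    rw [Finset.sum_range_add]
  rw [h1]
  have h2 : ∑ t ∈ range N, kw K D (m + 1 + t) (fun _ l => ind (l.length < m)) = 0 := by
    refine Finset.sum_eq_zero (fun t _ => ?_)
    have : kw K D (m + 1 + t) (fun _ l => ind (l.length < m)) = kw K D (m + 1 + t)
        (fun _ _ => 0 * (0 : ℝ)) := by
      refine kw_congr K D _ (fun y _ l hl _ => ?_)
      rw [ind_false (by omega)]; ring
    rw [this, kw_mul_left, zero_mul]
  rw [h2, add_zero]
  exact kws_mono K D _ (fun y _ l _ _ => ind_le_one _)

theorem SS : SS_stmt := by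
  intro hWI hK2 hEC hES hK1 V _ _ G d K θ h hReg hK hP D A F m a κ p c₀ c₁ c₂ hD hm hc1 hc2 hQ hbad
    hF0 hF1
  classical
  have hn : (0 : ℝ) < Fintype.card V := by exact_mod_cast Par.card_pos hP
  set φ : List V → ℝ := fun γ => F (D ∪ γ.toFinset) with hφ
  -- bound of φ
  have hM : ∀ γ, |φ γ| ≤ ∑ S : Finset V, |F S| := fun γ =>
    Finset.single_le_sum (f := fun S : Finset V => |F S|) (fun _ _ => abs_nonneg _)
      (Finset.mem_univ (D ∪ γ.toFinset))
  have hs := hWI V G d K hReg hK D hD φ _ hM
  have hs1 := hWI V G d K hReg hK D hD (fun _ => (1 : ℝ)) 1 (fun _ => by simp)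
  have hval : ∑ v, EF G D (fun g => F (dn D g v)) = EF G D (fun g => ∑ v, φ (pth D g v)) := by
    rw [SS_EF_sum]
    rfl
  have hone : EF G D (fun g => ∑ v : V, (1 : ℝ)) = Fintype.card V := by
    simp only [Finset.sum_const, Finset.card_univ, nsmul_eq_mul, mul_one]
    exact SS_EF_const hReg.conn hD _
  rw [hone] at hs1
  have ht : Tendsto (fun N => kws K D N (fun y l => φ (run [y] l))) atTop
      (𝓝 (EF G D (fun g => ∑ v, φ (pth D g v)))) := hs.tendsto_sum_nat
  have ht1 : Tendsto (fun N => kws K D N (fun _ _ => (1 : ℝ))) atTop (𝓝 (Fintype.card V : ℝ)) :=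
    hs1.tendsto_sum_nat
  -- pointwise bound
  have hpt : ∀ N, kws K D N (fun y l => φ (run [y] l)) ≤
      (c₀ - c₁) * kws K D N (fun _ _ => (1 : ℝ)) + (c₁ * (Fintype.card V * κ + Fintype.card V * p)
        + c₂ * (2 * (m * (m + 1) * A.card) + Fintype.card V * (2 * m * θ))) := by
    intro N
    have h1 : kws K D N (fun y l => φ (run [y] l)) ≤ kws K D N (fun y l =>
        (c₀ - c₁) * 1 + (c₁ * ind (l.length < m) +
          (c₁ * ind (m ≤ l.length ∧ (top m y l).card < a) +
          (c₂ * 2 * (ind (m ≤ l.length) * En K m (top m y l) A) +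
            c₂ * (ind (m ≤ l.length) * En K m (top m y l) (top m y l)))))) := by
      refine kws_mono K D N (fun y hy l hl hav => ?_)
      have hsub : D ⊆ D ∪ (run [y] l).toFinset := Finset.subset_union_left
      have hb := hF0 _ hsub
      have e1 : 0 ≤ En K m (top m y l) A := SS_En_nonneg K m _ _
      have e2 : 0 ≤ En K m (top m y l) (top m y l) := SS_En_nonneg K m _ _
      by_cases h1 : l.length < m
      · rw [ind_true h1, ind_false (p := m ≤ l.length ∧ (top m y l).card < a) (by omega),
          ind_false (p := m ≤ l.length) (by omega)]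
        simp only [hφ]
        linarith
      · rw [ind_false h1, ind_true (p := m ≤ l.length) (by omega)]
        by_cases h2 : (top m y l).card < a
        · rw [ind_true (p := m ≤ l.length ∧ (top m y l).card < a) ⟨by omega, h2⟩]
          simp only [hφ]
          have := mul_nonneg (mul_nonneg hc2 (by norm_num : (0:ℝ) ≤ 2)) e1
          have := mul_nonneg hc2 e2
          linarith
        · rw [ind_false (p := m ≤ l.length ∧ (top m y l).card < a) (fun h => h2 h.2)]
          obtain ⟨B, hB, hBa⟩ := Finset.exists_subset_card_eq (not_lt.1 h2)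
          have htop1 : top m y l ⊆ (run [y] l).toFinset := Finset.inter_subset_left
          have htop2 : ∀ z ∈ top m y l, z ∈ l := by
            intro z hz
            have := (Finset.mem_inter.1 hz).2
            rw [List.mem_toFinset] at this
            exact List.mem_of_mem_drop this
          have h3 := hF1 (D ∪ (run [y] l).toFinset) B hsub
            ((hB.trans htop1).trans Finset.subset_union_right)
            (Finset.disjoint_left.2 (fun z hz hz' => hav z (htop2 z (hB hz)) hz')) hBa
          have e3 : En K m B A ≤ En K m (top m y l) A := SS_En_mono K m hB (Finset.Subset.refl _)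
          have e4 : En K m B B ≤ En K m (top m y l) (top m y l) := SS_En_mono K m hB hB
          simp only [hφ]
          have := mul_le_mul_of_nonneg_left e3 (mul_nonneg hc2 (by norm_num : (0:ℝ) ≤ 2))
          have := mul_le_mul_of_nonneg_left e4 hc2
          linarith
    refine h1.trans ?_
    rw [kws_add, kws_add, kws_add, kws_add, kws_mul_left, kws_mul_left, kws_mul_left, kws_mul_left,
      kws_mul_left]
    have a1 : kws K D N (fun _ l => ind (l.length < m)) ≤ Fintype.card V * κ := by
      refine (SS_short K D m N).trans ?_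
      rw [hK2]
      exact mul_le_mul_of_nonneg_left hQ hn.le
    have a2 := hbad N
    have a3 := hEC hK1 V K D A m N
    have a4 := hES hK1 V K θ h hP D m N hm
    have b1 := mul_le_mul_of_nonneg_left a1 hc1
    have b2 := mul_le_mul_of_nonneg_left a2 hc1
    have b3 := mul_le_mul_of_nonneg_left a3 (mul_nonneg hc2 (by norm_num : (0:ℝ) ≤ 2))
    have b4 := mul_le_mul_of_nonneg_left a4 hc2
    linarith
  have hlim := le_of_tendsto_of_tendsto' ht ((ht1.const_mul (c₀ - c₁)).add_const _) hpt
  rw [hval, div_le_iff₀ hn]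
  refine hlim.trans (le_of_eq ?_)
  field_simp
  ring

end Pool.Agent.helper66.FB
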