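import Pool.Agent.helper90.FN.Defs

/-!
Definitions for part B of the functional form of MP_5ae64c_pr: the skeleton spanned by `J` uniform
vertices is hit quickly. Words are killed on a finite set `D` of vertices (the skeleton).
-/

set_option autoImplicit false

open scoped BigOperators Topology
open Filter MeasureTheory

namespace Pool.Agent.helper66.FB

open Finset
open Pool.Agent.helper72.UT (IsFor dep pth rt fors Reg lz)
open Pool.Agent.helper20.HP (ind HW W Par cc run lel lst lazyP tmix ustE height vol Setup CZ CP IsKer Zq)
open Pool.Agent.helper90.FN (EF glue dn sk avJ Hit)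

variable {V : Type} [Fintype V] [DecidableEq V]

/-- total weight of `F y l` over the words `l` of length `t` started at a vertex `y ∈ D` and avoiding `D`
afterwards -/
noncomputable def kw (K : HW V) (D : Finset V) (t : ℕ) (F : V → List V → ℝ) : ℝ :=
  ∑ y ∈ D, W K t y (fun l => ind (∀ z ∈ l, z ∉ D) * F y l)

/-- sum of `kw` over the lengths `t < N` -/
noncomputable def kws (K : HW V) (D : Finset V) (N : ℕ) (F : V → List V → ℝ) : ℝ :=
  ∑ t ∈ range N, kw K D t F

/-- Green function up to time `m` -/
noncomputable def Gr (K : HW V) (m : ℕ) (x y : V) : ℝ := ∑ u ∈ range (m + 1), K.pt u x y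

/-- mutual energy -/
noncomputable def En (K : HW V) (m : ℕ) (A B : Finset V) : ℝ := ∑ x ∈ A, ∑ y ∈ B, Gr K m x y

/-- probability that the stationary walk meets `D` up to time `m` -/
noncomputable def Q (K : HW V) (D : Finset V) (m : ℕ) : ℝ :=
  (∑ x, W K m x (fun l => ind (∃ z ∈ x :: l, z ∈ D))) / (Fintype.card V : ℝ)

/-- vertices of the final state of the word `l` started at `y` which are visited during its last `m` steps -/
def top (m : ℕ) (y : V) (l : List V) : Finset V := (run [y] l).toFinset ∩ (l.rtake m).toFinset

/-- expectation of `Ψ` after adding to the skeleton `D` the paths of `k` independent uniform vertices -/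
noncomputable def it (G : SimpleGraph V) : ℕ → (Finset V → ℝ) → Finset V → ℝ
  | 0, Ψ, D => Ψ D
  | k + 1, Ψ, D => (∑ v, EF G D (fun g => it G k Ψ (dn D g v))) / (Fintype.card V : ℝ)

end Pool.Agent.helper66.FB
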