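import Pool.Agent.helper66.FB.Defs
import Pool.Agent.helper90.FN.Spec

/-!
Statements of the modules of part B (skeletons of uniform vertices are hit quickly).
`n = card V`, `L = Nat.sqrt n`. Every statement is independent; a module file proves
`theorem XX (h : YY_stmt) ... : XX_stmt` from earlier statements.
-/

set_option autoImplicit false

open scoped BigOperators Topology
open Filter MeasureTheory

namespace Pool.Agent.helper66.FB

open Finset
open Pool.Agent.helper72.UT (IsFor dep pth rt fors Reg lz)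
open Pool.Agent.helper20.HP (ind HW W Par cc run lel lst lazyP tmix ustE height vol Setup CZ CP IsKer Zq)
open Pool.Agent.helper90.FN (EF glue dn sk avJ Hit G1_stmt G2_stmt G3_stmt G4_stmt)

/-! ### Words killed on `D` -/

/-- K1 (pointwise Kac): the words from `D` which avoid `D` and end at `x` have total weight at most `1`.
Proof: reversal (`W_rev`), `kw K D t (g ∘ lst) = ∑ x, g x * P_x(first visit of D at time t)`; or
directly by induction over `N`. -/
def K1_stmt : Prop :=
  ∀ (V : Type) [Fintype V] [DecidableEq V] (K : HW V) (D : Finset V) (N : ℕ) (g : V → ℝ),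
    (∀ x, 0 ≤ g x) → kws K D N (fun y l => g (lst y l)) ≤ ∑ x, g x

/-- K2: the mass of the words of length `≤ m` is `n` times the hitting probability of the stationary walk.
(Reversal and first visit; both sides satisfy the same recursion in `m`.) -/
def K2_stmt : Prop :=
  ∀ (V : Type) [Fintype V] [DecidableEq V] (K : HW V) (D : Finset V) (m : ℕ),
    kws K D (m + 1) (fun _ _ => 1) = (Fintype.card V : ℝ) * Q K D m

/-- K3: the mass of long words decays exponentially if `D` is hit quickly. By K2 the mass of the words of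
length in `(j H, N)` is `≤ n - n Q K D (j H) ≤ ∑ x, W K (j H) x (avoid D) ≤ n 2^{-j}`. -/
def K3_stmt : Prop :=
  ∀ (V : Type) [Fintype V] [DecidableEq V] (K : HW V) (D : Finset V) (H : ℕ), Hit K D H →
    ∀ j N : ℕ, kws K D N (fun _ l => ind (j * H < l.length)) ≤ (Fintype.card V : ℝ) * (1 / 2) ^ j

/-- WI (Wilson's algorithm): from helper72's `pot_hasSum` and `ker_iter_eq_W` -/
def WI_stmt : Prop :=
  ∀ (V : Type) [Fintype V] [DecidableEq V] (G : SimpleGraph V) (d : ℕ) (K : HW V), Reg G d →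
    K.p = lz G d → ∀ D : Finset V, D.Nonempty → ∀ (φ : List V → ℝ) (M : ℝ), (∀ γ, |φ γ| ≤ M) →
    HasSum (fun t => kw K D t (fun y l => φ (run [y] l))) (EF G D (fun g => ∑ v, φ (pth D g v)))

/-- IT: the skeleton of `J` independent uniform vertices is built vertex by vertex (tower property G3 for
`R f = dn D f v`, gluing G1, G4: `sk D (glue (dn D f v) f g) (v :: l) = sk (dn D f v) g l`) -/
def IT_stmt : Prop :=
  G1_stmt → G2_stmt → G3_stmt → G4_stmt → ∀ (V : Type) [Fintype V] [DecidableEq V] (G : SimpleGraph V), G.Connected →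
    ∀ D : Finset V, D.Nonempty →
    (∀ (J : ℕ) (Ψ : Finset V → ℝ),
      avJ J (fun l => EF G D (fun f => Ψ (sk D f l))) = it G J Ψ D) ∧
    (∀ (J : ℕ) (Φ : Finset V → Finset V → ℝ),
      avJ (J + 1) (fun l => EF G D (fun f => Φ (sk D f (l.take 1)) (sk D f l)))
        = (∑ v, EF G D (fun g => it G J (Φ (dn D g v)) (dn D g v))) / (Fintype.card V : ℝ))

/-! ### Level counts and mass of the bad words -/

/-- LC: during the first `m` steps from the state `x :: ρ` there are few times at which fewer than `a` vertices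
of the final state have been visited. Proof: `split_min` gives `l = l1 ++ l2`, `lst x l1 = z ∈ x :: ρ`, final state
`run [z] l2 ++ σ` and `run [z] l2` consists of `lel z l2 + 1` vertices of `x :: l`; so `lel z l2 < a`; sum over the
length of `l2` with `Zq_le` (as in the proof of `visits'`, module B5). -/
def LC_stmt : Prop :=
  ∀ (V : Type) [Fintype V] [DecidableEq V] (K : HW V) (θ : ℝ) (h : ℕ), Par K θ h →
    ∀ (x : V) (ρ : List V), (x :: ρ).Nodup → ∀ a m : ℕ, 4 * m ≤ Nat.sqrt (Fintype.card V) →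
    ∑ j ∈ range m, W K j x (fun l =>
        ind (((run (x :: ρ) l).toFinset ∩ (x :: l).toFinset).card < a)) ≤
      CZ θ * a * ∑ u ∈ range m, W K u x (fun l => ind (lst x l ∈ x :: ρ))

/-- NF (near and far): expected number of visits to the current state during `m` steps, over all words whose
state `2 h` steps before was not longer than `Λ`. A vertex of the state which was not visited during the last
`2 h` steps was in the state `2 h` steps before (probability `≤ 3 / (2 n)` each); the others contribute at most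
`∑_{a < 2 h, u < m} cc (a + u) ≤ θ` for each word (`cc_double_le`), the words have mass `≤ n` (K1, g = 1). -/
def NF_stmt : Prop :=
  K1_stmt → ∀ (V : Type) [Fintype V] [DecidableEq V] (K : HW V) (θ : ℝ) (h : ℕ), Par K θ h →
    ∀ (D : Finset V) (m N : ℕ) (Λ : ℝ), 4 * m ≤ Nat.sqrt (Fintype.card V) → 0 ≤ Λ →
    kws K D N (fun y l => ind (((run [y] (l.rdrop (2 * h))).length : ℝ) ≤ Λ) *
        ∑ u ∈ range m, W K u (lst y l) (fun l' => ind (lst (lst y l) l' ∈ run [y] l))) ≤
      (Fintype.card V : ℝ) * (θ + m * Λ * (3 / (2 * (Fintype.card V : ℝ))))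

/-- BM: mass of the bad words. For a word of length `≥ m` and `j < m` write it `l1 ++ l2`, `|l2| = j`; if `top` has
fewer than `a` elements then the event of LC holds for `l2`; sum over `j < m` and over `l1`. Use `m` as bound of the
inner sum if the state of `l1` without its last `2 h` steps is longer than `Λ`. -/
def BM_stmt : Prop :=
  LC_stmt → NF_stmt → K1_stmt →
  ∀ (V : Type) [Fintype V] [DecidableEq V] (K : HW V) (θ : ℝ) (h : ℕ), Par K θ h →
    ∀ (D : Finset V) (m a N : ℕ) (Λ : ℝ), 1 ≤ m → 4 * m ≤ Nat.sqrt (Fintype.card V) → 0 ≤ Λ →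
    kws K D N (fun y l => ind (m ≤ l.length ∧ (top m y l).card < a)) ≤
      (Fintype.card V : ℝ) * (CZ θ * (a / m) * (θ + m * Λ * (3 / (2 * (Fintype.card V : ℝ)))))
        + kws K D N (fun y l => ind (Λ < ((run [y] (l.rdrop (2 * h))).length : ℝ)))

/-- BL: forgetting the last `b` steps (the words of length `< b` do not count because `1 ≤ Λ`) -/
def BL_stmt : Prop :=
  ∀ (V : Type) [Fintype V] [DecidableEq V] (K : HW V) (D : Finset V) (b N : ℕ) (Λ : ℝ),
    1 ≤ Λ →
    kws K D N (fun y l => ind (Λ < ((run [y] (l.rdrop b)).length : ℝ))) ≤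
      kws K D N (fun y l => ind (Λ < ((run [y] l).length : ℝ)))

/-! ### Energy -/

/-- EC: cross energy. `top` consists of vertices visited during the last `m` steps; the first part of the word is
summed with K1; `∑ x, ∑ s ∈ [1, m], ∑ z, pt s x z * g z = m * ∑ z, g z`, `∑ z, Gr K m z y = m + 1`. -/
def EC_stmt : Prop :=
  K1_stmt → ∀ (V : Type) [Fintype V] [DecidableEq V] (K : HW V) (D A : Finset V) (m N : ℕ),
    kws K D N (fun y l => ind (m ≤ l.length) * En K m (top m y l) A) ≤ m * (m + 1) * A.card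

/-- ES: self energy, `E Gr(X_s, X_s') = ∑_u cc (|s - s'| + u)`, `cc_double_le`. -/
def ES_stmt : Prop :=
  K1_stmt → ∀ (V : Type) [Fintype V] [DecidableEq V] (K : HW V) (θ : ℝ) (h : ℕ), Par K θ h →
    ∀ (D : Finset V) (m N : ℕ), 4 * m ≤ Nat.sqrt (Fintype.card V) →
    kws K D N (fun y l => ind (m ≤ l.length) * En K m (top m y l) (top m y l)) ≤
      (Fintype.card V : ℝ) * (2 * m * θ)

/-- QE: hitting probability from the energy. `N` = number of visits to `A` up to time `m` of the stationary walk,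
`E N = (m+1)|A|/n`, `E N^2 ≤ 2 (m+1)/n * En`, and `(E N)^2 ≤ E N^2 * P(N > 0)` (average of
`2 s N ≤ N^2 + s^2 1(N > 0)`). -/
def QE_stmt : Prop :=
  ∀ (V : Type) [Fintype V] [DecidableEq V] (K : HW V) (A : Finset V) (m : ℕ), 0 < Fintype.card V →
    ((m + 1) * (A.card : ℝ) / Fintype.card V) ^ 2 ≤
      Q K A m * (2 * (m + 1) / Fintype.card V * En K m A A)

/-- QH: from the hitting probability of the stationary walk to `Hit`. From every `x`, `P_x(avoid D on (0, h₀+m]) ≤
1 - κ/2` if `κ ≤ Q K D m`; iterate `⌈2/κ⌉` times. -/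
def QH_stmt : Prop :=
  ∀ (V : Type) [Fintype V] [DecidableEq V] (K : HW V) (D : Finset V) (m h₀ H : ℕ) (κ : ℝ),
    1 ≤ h₀ → (∀ x y, 1 / (2 * (Fintype.card V : ℝ)) ≤ K.pt h₀ x y) → 0 < κ → κ ≤ Q K D m →
    ((h₀ : ℝ) + m) * (2 / κ + 1) ≤ H → Hit K D H

/-! ### One step and induction -/

/-- SS: one step. If the new path contains a set `B` of `a` vertices (visited during the last `m` steps) the value
decreases by `c₁` and increases by `c₂` times the energies; the bad words and the words of length `< m` have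
mass at most `n (p + κ)`. Proof: WI (value = limit of `kws`), for each word the value is at most
`c₀ - c₁ * ind good + c₂ * (2 En top A + En top top)`, total mass `n` (WI with `φ = 1`). -/
def SS_stmt : Prop :=
  WI_stmt → K2_stmt → EC_stmt → ES_stmt → K1_stmt →
  ∀ (V : Type) [Fintype V] [DecidableEq V] (G : SimpleGraph V) (d : ℕ) (K : HW V) (θ : ℝ) (h : ℕ),
    Reg G d → K.p = lz G d → Par K θ h → ∀ (D A : Finset V) (F : Finset V → ℝ) (m a : ℕ)
    (κ p c₀ c₁ c₂ : ℝ), D.Nonempty → 4 * m ≤ Nat.sqrt (Fintype.card V) → 0 ≤ c₁ → 0 ≤ c₂ →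
    Q K D m ≤ κ →
    (∀ N, kws K D N (fun y l => ind (m ≤ l.length ∧ (top m y l).card < a)) ≤ Fintype.card V * p) →
    (∀ D', D ⊆ D' → F D' ≤ c₀) →
    (∀ D' B, D ⊆ D' → B ⊆ D' → Disjoint B D → B.card = a →
      F D' ≤ c₀ - c₁ + c₂ * (2 * En K m B A + En K m B B)) →
    (∑ v, EF G D (fun g => F (dn D g v))) / (Fintype.card V : ℝ) ≤
      c₀ - c₁ * (1 - κ - p) + c₂ * (2 * (m * (m + 1) * A.card / Fintype.card V) + 2 * m * θ)

/-- IN: induction over the number of vertices. Claim for `A ⊆ D`, `|A| ≤ (J - k) a`: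
`it G k F D ≤ 2 ((J-k) a - |A|)/(J a) + 2 k (κ+p)/J + (En A A + k e)/E`, `e = 2 m θ + 2 J a m (m+1)/n`. -/
def IN_stmt : Prop :=
  SS_stmt → QE_stmt → WI_stmt → K2_stmt → EC_stmt → ES_stmt → K1_stmt →
  ∀ (V : Type) [Fintype V] [DecidableEq V] (G : SimpleGraph V) (d : ℕ) (K : HW V) (θ : ℝ) (h : ℕ),
    Reg G d → K.p = lz G d → Par K θ h → ∀ (D₀ : Finset V) (m a J : ℕ) (κ p E : ℝ),
    D₀.Nonempty → 4 * m ≤ Nat.sqrt (Fintype.card V) → 1 ≤ a → 1 ≤ J → 0 < E → 0 ≤ p →
    κ = (m + 1) * (J * a / 2) ^ 2 / (2 * Fintype.card V * E) →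
    (∀ D, D = D₀ ∨ (D₀ ⊆ D ∧ 2 ≤ J) → ∀ N,
      kws K D N (fun y l => ind (m ≤ l.length ∧ (top m y l).card < a)) ≤ Fintype.card V * p) →
    it G J (fun D => ind (Q K D m < κ)) D₀ ≤
      2 * (κ + p) + J * (2 * m * θ + 2 * J * a * m * (m + 1) / Fintype.card V) / E

/-! ### Conclusions -/

/-- lower bound for the transition probabilities at the mixing time (from `tmix_spec`), and `Par` -/
def ML_stmt : Prop :=
  ∀ (S : Setup) (K : ∀ k, HW (S.V k)), IsKer S K → ∀ k (x y : S.V k), 2 ≤ Fintype.card (S.V k) →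
    1 / (2 * (Fintype.card (S.V k) : ℝ)) ≤ (K k).pt (tmix (S.G k) + 1) x y

/-- tightness of the distance of a uniform vertex to the root -/
def Tight (S : Setup) : Prop :=
  ∀ ε : ℝ, 0 < ε → ∃ Λ : ℝ, 0 < Λ ∧ ∀ᶠ k in atTop,
    EF (S.G k) {S.o k} (fun f => ∑ v, ind (Λ * Real.sqrt (Fintype.card (S.V k)) < dep {S.o k} f v))
      ≤ ε * Fintype.card (S.V k)

/-- B1: the path of one uniform vertex is hit in time `λ √n` with probability close to `1` -/
def B1_stmt : Prop :=
  ∀ (S : Setup) (K : ∀ k, HW (S.V k)), IsKer S K → Tight S → ∀ ε : ℝ, 0 < ε →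
    ∃ lam : ℝ, 0 < lam ∧ ∀ᶠ k in atTop,
      it (S.G k) 1 (fun D => ind (¬ Hit (K k) D ⌊lam * Real.sqrt (Fintype.card (S.V k))⌋₊)) {S.o k} ≤ ε

/-- B2: `J` more uniform vertices reduce the hitting time by a power of `J` -/
def B2_stmt : Prop :=
  ∀ (S : Setup) (K : ∀ k, HW (S.V k)), IsKer S K → ∀ lam : ℝ, 0 < lam → ∃ C : ℝ, ∀ᶠ k in atTop,
    ∀ D : Finset (S.V k), D.Nonempty →
      Hit (K k) D ⌊lam * Real.sqrt (Fintype.card (S.V k))⌋₊ → ∀ J : ℕ, 1 ≤ J →
      (J : ℝ) ≤ (Fintype.card (S.V k) : ℝ) ^ S.a →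
      it (S.G k) J (fun D' => ind (¬ Hit (K k) D'
          ⌊Real.sqrt (Fintype.card (S.V k)) * (J : ℝ) ^ (-(1 / 8) : ℝ)⌋₊)) D
        ≤ C * (J : ℝ) ^ (-(1 / 12) : ℝ)

end Pool.Agent.helper66.FB
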