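import Pool.Agent.helper66.FB.Spec
import Pool.Agent.helper90.FN.Goals
import Pool.Agent.helper72.UT.Redirect

/-!
Part B, second half: comparison of the spanning tree with forests rooted at a set `B` (Rayleigh), state
lengths, tightness with a rate, and `BGoal`. `n = card V`, `L = Nat.sqrt n`. The statements are pure; the text
says from which other statements a module may deduce them (take those as hypotheses).
-/

set_option autoImplicit false

open scoped BigOperators Topology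
open Filter MeasureTheory

namespace Pool.Agent.helper66.FB

open Finset
open Pool.Agent.helper72.UT (IsFor dep pth rt fors Reg lz PathTo)
open Pool.Agent.helper20.HP (ind HW W Par cc run lel lst lazyP tmix ustE height vol Setup CZ CP IsKer Zq)
open Pool.Agent.helper90.FN (EF glue dn sk avJ Hit BGoal)

variable {V : Type} [Fintype V] [DecidableEq V]

/-! ### Comparison -/

/-- Dirichlet form of the kernel -/
noncomputable def dir (K : HW V) (f g : V → ℝ) : ℝ :=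
  (∑ x, ∑ z, K.p x z * ((f x - f z) * (g x - g z))) / 2

/-- `u` is `1` on `A`, `0` on `R` and harmonic elsewhere -/
structure Har (K : HW V) (A R : Finset V) (u : V → ℝ) : Prop where
  one : ∀ x ∈ A, u x = 1
  zero : ∀ x ∈ R, u x = 0
  harm : ∀ x, x ∉ A → x ∉ R → u x = ∑ z, K.p x z * u z

omit [Fintype V] [DecidableEq V] in
/-- the path `η` is contained in the forest `f`: its vertices lead along the parent map to a vertex `z` of `η` whose
parent is not in `η` -/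
def Cont (f : V → V) (η : List V) : Prop :=
  ∃ (a : List V) (z : V) (b : List V), η = a ++ z :: b ∧ (a ++ [z]).IsChain (fun u v => f u = v) ∧
    (z :: b).IsChain (fun u v => f v = u) ∧ f z ∉ η

/-- HX: Green's formula, existence, uniqueness, minimality, positivity (`dir K u u = 0` and connectedness imply
that `u` is constant; existence from injectivity of the linear map) -/
def HX_stmt : Prop :=
  ∀ (V : Type) [Fintype V] [DecidableEq V] (G : SimpleGraph V) (d : ℕ) (K : HW V), Reg G d →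
    K.p = lz G d →
    (∀ f g : V → ℝ, dir K f g = ∑ x, g x * (f x - ∑ z, K.p x z * f z)) ∧
    (∀ f g : V → ℝ, dir K f g = dir K g f) ∧
    (∀ A R : Finset V, Disjoint A R → (A ∪ R).Nonempty → ∃ u, Har K A R u) ∧
    (∀ A R : Finset V, (A ∪ R).Nonempty → ∀ u v, Har K A R u → Har K A R v → u = v) ∧
    (∀ (A R : Finset V) (u v : V → ℝ), Har K A R u → (∀ x ∈ A, v x = 1) → (∀ x ∈ R, v x = 0) →
      dir K u u ≤ dir K v v) ∧
    (∀ (A R : Finset V) (u : V → ℝ), Har K A R u → A.Nonempty → R.Nonempty → 0 < dir K u u)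

/-- RAY (from HX). `a = u₃`, `b = u₂`, `α = dir a a`, `β = dir b b`, `w = -dir a b`:
`dir u₁ u₁ ≤ dir (a + (w/β) b) = α - w²/β` (minimality) and `u₄ = b + (w/α) a` (uniqueness), energy `β - w²/α`. -/
def RAY_stmt : Prop :=
  ∀ (V : Type) [Fintype V] [DecidableEq V] (G : SimpleGraph V) (d : ℕ) (K : HW V), Reg G d →
    K.p = lz G d → ∀ (B C : Finset V) (y : V), B.Nonempty → C.Nonempty → Disjoint B C → y ∉ B →
    y ∉ C → ∀ u₁ u₂ u₃ u₄ : V → ℝ, Har K {y} C u₁ → Har K B (insert y C) u₂ →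
    Har K {y} (B ∪ C) u₃ → Har K B C u₄ →
    dir K u₁ u₁ * dir K u₂ u₂ ≤ dir K u₃ u₃ * dir K u₄ u₄

/-- H1: root probabilities are harmonic (from helper72's `pot_step` with `φ γ = ind (γ.head? = some v)`, one root
`o ∈ A` at a time) -/
def H1_stmt : Prop :=
  ∀ (V : Type) [Fintype V] [DecidableEq V] (G : SimpleGraph V) (d : ℕ) (K : HW V), Reg G d →
    K.p = lz G d → ∀ D A : Finset V, D.Nonempty → A ⊆ D →
    Har K A (D \ A) (fun v => EF G D (fun g => ind (rt D g v ∈ A)))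

/-- H2 (from HX, H1): `f ∈ fors G R ↔ (f', z)`, `f' ∈ fors G (insert y R)`, `z = f y` adjacent to `y`,
`rt f' z ≠ y`; so `Z(R) = Z(R ∪ y) ∑_{z ~ y} (1 - u z) = Z(R ∪ y) 2 d dir u u` -/
def H2_stmt : Prop :=
  ∀ (V : Type) [Fintype V] [DecidableEq V] (G : SimpleGraph V) (d : ℕ) (K : HW V), Reg G d →
    K.p = lz G d → ∀ (R : Finset V) (y : V), R.Nonempty → y ∉ R → ∀ u : V → ℝ, Har K {y} R u →
    ((fors G R).card : ℝ) = 2 * d * (fors G (insert y R)).card * dir K u u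

/-- H3 (from HX, H1): `f ∈ fors G B` with `Cont f η` ↔ `(g, z, w)`, `g ∈ fors G (B ∪ η)`, `z ∈ η`, `w ~ z`,
`w ∉ η`, `rt g w ∈ B` -/
def H3_stmt : Prop :=
  ∀ (V : Type) [Fintype V] [DecidableEq V] (G : SimpleGraph V) (d : ℕ) (K : HW V), Reg G d →
    K.p = lz G d → ∀ (B : Finset V) (y : V) (η : List V), B.Nonempty → PathTo G y η →
    (∀ x ∈ η, x ∉ B) → ∀ u : V → ℝ, Har K B η.toFinset u →
    (open Classical in (((fors G B).filter (fun f => Cont f η)).card : ℝ)) =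
      2 * d * (fors G (B ∪ η.toFinset)).card * dir K u u

/-- H5 (from HX, RAY, H2, H3): induction over `η = v :: η'`. With `E(A|R)` the energies:
`N(η) = 2d Z(B∪η) E(B|η)`, `Z(B∪η') = 2d Z(B∪η) E(v|B∪η')`, `Z(η') = 2d Z(η) E(v|η')`. -/
def H5_stmt : Prop :=
  ∀ (V : Type) [Fintype V] [DecidableEq V] (G : SimpleGraph V) (d : ℕ) (K : HW V), Reg G d →
    K.p = lz G d → ∀ (B : Finset V) (y : V) (η : List V), B.Nonempty → PathTo G y η →
    (∀ x ∈ η, x ∉ B) →
    (open Classical in (((fors G B).filter (fun f => Cont f η)).card : ℝ)) * (fors G {y}).card ≤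
      (fors G η.toFinset).card * (fors G B).card

/-- CMP (from H5, helper72's `card_path`): sum over the paths `η` from `x` to `y` -/
def CMP_stmt : Prop :=
  ∀ (V : Type) [Fintype V] [DecidableEq V] (G : SimpleGraph V) (d : ℕ) (K : HW V), Reg G d →
    K.p = lz G d → ∀ (B : Finset V) (x y : V) (ℓ : ℕ), B.Nonempty →
    EF G B (fun f => ind (∃ i j, i + j ≤ ℓ ∧ f^[i] x = f^[j] y ∧ f^[i] x ∉ B)) ≤
      EF G {y} (fun f => ind (dep {y} f x ≤ ℓ))

/-! ### Analysis -/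

/-- GB: greedy choice of a set with small energy (`Gr K T x x ≤ θ`, the average of the cross energy with `b`
over `b ∉ B` is at most `2 |B| (T+1) / n`) -/
def GB_stmt : Prop :=
  ∀ (V : Type) [Fintype V] [DecidableEq V] (K : HW V) (θ : ℝ) (h : ℕ), Par K θ h →
    ∀ N T : ℕ, 2 * N ≤ Fintype.card V → T ≤ Nat.sqrt (Fintype.card V) →
    ∃ B : Finset V, B.card = N ∧
      En K T B B ≤ N * θ + 2 * (N : ℝ) ^ 2 * (T + 1) / Fintype.card V

/-- RV: reversal. `kw K D t` is the sum over `x` of the walks from `x` whose first visit of `D` is at time `t`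
(`W_rev`); these events are disjoint. -/
def RV_stmt : Prop :=
  ∀ (V : Type) [Fintype V] [DecidableEq V] (K : HW V) (D : Finset V) (N : ℕ) (F F' : List V → ℝ),
    (∀ l, 0 ≤ F' l) → (∀ l₁ l₂ : List V, l₁ ≠ [] → F l₁.reverse ≤ F' (l₁ ++ l₂)) →
    kws K D (N + 1) (fun y l => F (y :: l)) ≤ ∑ x, W K N x (fun l => F' (x :: l))

/-- RE: energy of the range (from RV with `F' l = ∑_{s, s' ≤ |l|} Gr (l s) (l s')`);
`∑_{d ≤ N, u ≤ T} cc (d + u) ≤ θ + (N+1)(T+1) 3/(2n)` -/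
def RE_stmt : Prop :=
  ∀ (V : Type) [Fintype V] [DecidableEq V] (K : HW V) (θ : ℝ) (h : ℕ), Par K θ h →
    ∀ (D : Finset V) (T N : ℕ),
    kws K D (N + 1) (fun y l => En K T (y :: l).toFinset (y :: l).toFinset) ≤
      Fintype.card V * (2 * (N + 1) * (θ + (N + 1) * (T + 1) * (3 / (2 * (Fintype.card V : ℝ)))))

/-- AV: avoiding `U` -/
def AV_stmt : Prop :=
  ∀ (V : Type) [Fintype V] [DecidableEq V] (K : HW V) (U : Finset V) (T h₀ k : ℕ) (q : ℝ),
    1 ≤ h₀ → (∀ x y, 1 / (2 * (Fintype.card V : ℝ)) ≤ K.pt h₀ x y) → 0 ≤ q → q ≤ Q K U T →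
    ∀ x, W K (k * (h₀ + T)) x (fun l => ind (∀ z ∈ l, z ∉ U)) ≤ (1 - q / 2) ^ k

/-- SN: length of the state (from K1, K3, RE, AV, QE). Words longer than `j H`: K3. Otherwise
`l = l1 ++ l2`, `|l2| = k`; the state of `l1` is longer than `k` and `l2` avoids its lowest `k` vertices `U`
(else the final state has at most `2k` vertices); `En K T U U ≤ En K T (y :: l1)`, which is `≤ E` except for mass RE/E;
then `Q K U T ≥ q` by QE and AV applies. -/
def SN_stmt : Prop :=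
  ∀ (V : Type) [Fintype V] [DecidableEq V] (K : HW V) (θ : ℝ) (h₀ : ℕ), Par K θ h₀ →
    (∀ x y, 1 / (2 * (Fintype.card V : ℝ)) ≤ K.pt h₀ x y) → ∀ (D : Finset V) (H : ℕ), Hit K D H →
    ∀ (j k T N : ℕ) (E q : ℝ), 1 ≤ k → 0 < E → 0 ≤ q → q ≤ 1 →
    q ≤ (T + 1) * (k : ℝ) ^ 2 / (2 * Fintype.card V * E) →
    kws K D N (fun y l => ind (2 * k < (run [y] l).length)) ≤
      Fintype.card V * ((1 / 2) ^ j
        + 2 * (j * H + 1) * (θ + (j * H + 1) * (T + 1) * (3 / (2 * (Fintype.card V : ℝ)))) / E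
        + (1 - q / 2) ^ (k / (h₀ + T)))

/-- CN: two uniform vertices are connected in the forest rooted at `B` (from G1, G3, G4, WI, K1, K3, RV). Reveal the
path of `x` (`dn B f x`), then `y`: good if `dep ≤ ℓ` for both and `rt g y ∉ B`;
`∑ y, P(rt g y ∈ B) ≤ ∑ y, (P_y(τ_B ≤ s) + P_y(τ_{dn} > s))`, `s = j' H'`, `∑ y, P_y(τ_B ≤ s) ≤ (s+1) |B|`. -/
def CN_stmt : Prop :=
  ∀ (V : Type) [Fintype V] [DecidableEq V] (G : SimpleGraph V) (d : ℕ) (K : HW V), Reg G d →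
    K.p = lz G d → ∀ (B : Finset V) (m H H' j j' ℓ : ℕ) (κ : ℝ), B.Nonempty → Hit K B H →
    (∀ D, κ ≤ Q K D m → Hit K D H') → j * H ≤ ℓ → j' * H' ≤ ℓ →
    ∑ x, ∑ y, (1 - EF G B (fun f => ind (∃ i i', i + i' ≤ 2 * ℓ ∧ f^[i] x = f^[i'] y ∧
        f^[i] x ∉ B))) ≤
      (Fintype.card V : ℝ) ^ 2 * (it G 1 (fun D => ind (Q K D m < κ)) B + (1 / 2) ^ j
        + ((j' * H' + 1) * B.card / Fintype.card V + 2 * (1 / 2) ^ j'))

/-- TV: invariance (from WI, `W_map`, `K.homog`) -/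
def TV_stmt : Prop :=
  ∀ (V : Type) [Fintype V] [DecidableEq V] (G : SimpleGraph V) (d : ℕ) (K : HW V), Reg G d →
    K.p = lz G d → ∀ (x y : V) (r : ℝ),
    EF G {x} (fun f => ∑ v, ind (r < dep {x} f v)) = EF G {y} (fun f => ∑ v, ind (r < dep {y} f v))

/-- common hypotheses of the quantitative statements -/
structure Std (G : SimpleGraph V) (d : ℕ) (K : HW V) (θ : ℝ) (h₀ : ℕ) : Prop where
  reg : Reg G d
  ker : K.p = lz G d
  par : Par K θ h₀
  low : ∀ x y, 1 / (2 * (Fintype.card V : ℝ)) ≤ K.pt h₀ x y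

/-- TS: tightness at scale `s` (from CMP, CN, TV, GB, QE, QH, SN, BM, BL, IN with `J = 1`). Parameters:
`B` from GB with `N = L / s^40`, `T = L / 4`; `Hit K B H`, `H = C₁ s^40 L`; SN with `j = s`, `k = s^32 L`,
`E = s * (2 (jH+1)(θ+(jH+1)(T+1)3/(2n)))` (about `C s^83 L`), `q = c s^-19`; then BM, BL (`Λ = 2 k`), IN with
`J = 1`, `m = L / s^32`, `a = m / s`, `E = m s`, so `κ ≥ c s^-67`; QH gives `H' = C s^35 L`; CN with `j = j' = s`,
`ℓ = C s^41 L`; finally CMP and TV (average over `x, y`). -/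
def TS_stmt : Prop :=
  ∀ θ : ℝ, ∃ C : ℝ, 0 < C ∧ ∀ (V : Type) [Fintype V] [DecidableEq V] (G : SimpleGraph V) (d : ℕ)
    (K : HW V) (h₀ : ℕ), Std G d K θ h₀ → ∀ (s : ℕ) (o : V), 1 ≤ s →
    s ^ 64 * h₀ ≤ Nat.sqrt (Fintype.card V) →
    EF G {o} (fun f => ∑ v, ind (C * (s : ℝ) ^ 41 * Nat.sqrt (Fintype.card V) < dep {o} f v)) ≤
      C / s * Fintype.card V

/-- B1S: the path of one uniform vertex (from BM, BL, IN with `J = 1`, `D₀ = {o}`, WI, QH). Parameters
`m = L / s^4`, `Λ = s^4 L + 1`, `a = m / s`, `E = m s`, `κ ≥ c s^-11`. -/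
def B1S_stmt : Prop :=
  ∀ θ : ℝ, ∃ C : ℝ, 0 < C ∧ ∀ (V : Type) [Fintype V] [DecidableEq V] (G : SimpleGraph V) (d : ℕ)
    (K : HW V) (h₀ : ℕ), Std G d K θ h₀ → ∀ (s : ℕ) (o : V), 1 ≤ s →
    s ^ 16 * h₀ ≤ Nat.sqrt (Fintype.card V) →
    it G 1 (fun D => ind (¬ Hit K D ⌊C * (s : ℝ) ^ 7 * Nat.sqrt (Fintype.card V)⌋₊)) {o} ≤
      C / s + EF G {o} (fun f => ∑ v, ind ((s : ℝ) ^ 4 * Nat.sqrt (Fintype.card V) < dep {o} f v))
        / Fintype.card V

/-- B2S: `J` more uniform vertices (from BM, BL, K3, IN, QH). Parameters `m = L / (4 (√J + 1))`,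
`Λ = √J H₁ + 1` (mass of longer states `≤ n 2^{-√J}` by K3), `a = ⌈m / t⌉`, `E = J m t`, `κ ≥ c t^-3`. -/
def B2S_stmt : Prop :=
  ∀ θ : ℝ, ∃ C : ℝ, 0 < C ∧ ∀ (V : Type) [Fintype V] [DecidableEq V] (G : SimpleGraph V) (d : ℕ)
    (K : HW V) (h₀ : ℕ), Std G d K θ h₀ → ∀ (D : Finset V) (H₁ t J : ℕ), D.Nonempty →
    Hit K D H₁ → 1 ≤ t → t ^ 12 ≤ J → J < (t + 1) ^ 12 →
    64 * (t * h₀ * (Nat.sqrt J + 1)) ≤ Nat.sqrt (Fintype.card V) →
    it G J (fun D' => ind (¬ Hit K D' ⌊C * Nat.sqrt (Fintype.card V) / (t : ℝ) ^ 3⌋₊)) D ≤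
      C * (1 + H₁ / Nat.sqrt (Fintype.card V)) / t

/-- BG: `BGoal` from TS, B1S, B2S, IT, ML, `par_eventually`, `tmix_small`, `M2_reg`, `M2_kernel`. For `J ≥ 2`:
first vertex with `H₁ = C s^c L` (B1S and TS), then B2S with `J - 1` vertices; size of `sk` from TS with
`s = J * (small power of J)` and the union bound. -/
def BG_stmt : Prop := TS_stmt → B1S_stmt → B2S_stmt → IT_stmt → ML_stmt → BGoal

end Pool.Agent.helper66.FB
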